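import Mathlib
import Pool.Agent.H158.CG.Conv

/-!
# MP_6c3374_co: monochromatic convex `p`-gons, an upper bound with a polynomial exponent

`g p` is the least number `n` such that in every set of `n` points of the plane in general position,
and for every colouring of the pairs of these points with two colours, some `p` points are in convex
position and all pairs of them have the same colour. The known bounds are `p / 2 < log₂ g(p)` and
`log₂ g(p) ≤ 2 ^ (2 p + 1)`. We show

  `log₂ g(p) ≤ 4 (p - 1)² (1 + log₂ (p - 1))`.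

**Proof.** Order the points lexicographically. Choose points `v₁ < v₂ < …` from left to right: `v_j`
is the first point of the current set `S`, and `S` is replaced by a part of `S \ {v_j}` all points `z` of
which have the same colour to `v_j`, and the same position with respect to the `j - 1` lines
`v_i v_j`. As these lines pass through `v_j` they divide the half-plane to the right of `v_j` into `j`
sectors only, and the new set `S` has at least `|S| / (2 j)` points. So `2 ^ m m!` points suffice for `m`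
steps. Now the colour of `v_i v_j`, `i < j`, depends only on `i`, and the orientation of
`v_i v_j v_k`, `i < j < k`, depends only on `i` and `j`; it is the orientation of `v_i v_j v_m`, that is,
the order of `v_i` and `v_j` around the last point. By the theorem of Erdős and Szekeres on monotone
subsequences there are, for `m = 2 (p - 2)² + 2`, `p - 1` points `v_i` of the same colour, which
are ordered monotonically around `v_m`. Together with `v_m` they are a monochromatic cup or cap.
-/

namespace Pool.Agent.Results.MP_6c3374_co.PolynomialExponent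

open Finset Pool.Agent.H158.CG

/-- No three points of `P` are collinear. -/
def GeneralPosition (P : Finset (ℝ × ℝ)) : Prop :=
  ∀ x ∈ P, ∀ y ∈ P, ∀ z ∈ P, x ≠ y → x ≠ z → y ≠ z → ¬ Collinear ℝ {x, y, z}

/-- Each point of `Q` is a vertex of the convex hull of `Q`: it is not contained in the convex hull
of the other points. -/
def ConvexPosition (Q : Finset (ℝ × ℝ)) : Prop :=
  ∀ q ∈ Q, q ∉ convexHull ℝ ((Q : Set (ℝ × ℝ)) \ {q})

/-- For every set of `n` points in general position and every colouring of the pairs of points with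
two colours, some `p` points are in convex position, and all pairs of them have the same colour. -/
def Forces (p n : ℕ) : Prop :=
  ∀ P : Finset (ℝ × ℝ), P.card = n → GeneralPosition P → ∀ c : Sym2 (ℝ × ℝ) → Bool,
    ∃ Q ⊆ P, Q.card = p ∧ ConvexPosition Q ∧ ∃ b, ∀ x ∈ Q, ∀ y ∈ Q, x ≠ y → c s(x, y) = b

/-- The least `n` with this property. -/
noncomputable def g (p : ℕ) : ℕ := sInf {n | Forces p n}

theorem forces_of_le (k n : ℕ) (hn : (2 * (2 * k ^ 2 + 2)) ^ (2 * k ^ 2 + 2) ≤ n) :
    Forces (k + 2) n := by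
  classical
  intro P hP hgen c
  set P' : Finset (ℝ ×ₗ ℝ) := P.map toLex.toEmbedding with hP'
  have hP'c : P'.card = n := by rw [hP', Finset.card_map, hP]
  have hPP : ∀ x ∈ P', ofLex x ∈ P := by
    intro x hx
    obtain ⟨y, hy, rfl⟩ := Finset.mem_map.1 hx
    exact hy
  obtain ⟨Q', hQ'P, hQ'c, ⟨b, hb⟩, hs⟩ := homogeneous (fun x y : ℝ ×ₗ ℝ => c s(ofLex x, ofLex y))
    Lft not_crossing lft_trans k P' (by rw [hP'c]; exact hn)
  have hcp : ∃ s : ℝ, ∀ x ∈ Q', ∀ y ∈ Q', ∀ w ∈ Q', x < y → y < w →
      0 < s * orient (ofLex x) (ofLex y) (ofLex w) := by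
    rcases hs with hs | hs
    · refine ⟨1, fun x hx y hy w hw h1 h2 => ?_⟩
      rw [one_mul]
      exact hs x hx y hy w hw h1 h2
    · refine ⟨-1, fun x hx y hy w hw h1 h2 => ?_⟩
      have h3 := hs x hx y hy w hw h1 h2
      unfold Lft at h3
      push Not at h3
      have h4 : orient (ofLex x) (ofLex y) (ofLex w) ≠ 0 := by
        intro h5
        refine hgen _ (hPP x (hQ'P hx)) _ (hPP y (hQ'P hy)) _ (hPP w (hQ'P hw)) ?_ ?_ ?_
          (collinear_of_orient ?_ h5)
        · exact fun h => h1.ne (ofLex.injective h)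
        · exact fun h => (h1.trans h2).ne (ofLex.injective h)
        · exact fun h => h2.ne (ofLex.injective h)
        · exact fun h => h1.ne (ofLex.injective h)
      have h6 := lt_of_le_of_ne h3 h4
      linarith
  obtain ⟨s, hs'⟩ := hcp
  refine ⟨Q'.map ofLex.toEmbedding, ?_, ?_, ?_, b, ?_⟩
  · intro x hx
    obtain ⟨y, hy, rfl⟩ := Finset.mem_map.1 hx
    exact hPP y (hQ'P hy)
  · rw [Finset.card_map, hQ'c]
  · intro q hq
    obtain ⟨q', hq', rfl⟩ := Finset.mem_map.1 hq
    have h1 := convexPos Q' s hs' q' hq'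
    rw [Finset.coe_map]
    exact h1
  · intro x hx y hy hxy
    obtain ⟨x', hx', rfl⟩ := Finset.mem_map.1 hx
    obtain ⟨y', hy', rfl⟩ := Finset.mem_map.1 hy
    rcases lt_or_gt_of_ne (fun h => hxy (by rw [h]) : x' ≠ y') with h | h
    · exact hb x' hx' y' hy' h
    · have := hb y' hy' x' hx' h
      rw [Sym2.eq_swap]
      exact this

/-- For all `p ≥ 2` the number `g(p)` exists and `log₂ g(p) ≤ 4 (p - 1)² (1 + log₂ (p - 1))`. -/
theorem result (p : ℕ) (hp : 2 ≤ p) :
    Forces p (g p) ∧ Real.logb 2 (g p) ≤ 4 * ((p : ℝ) - 1) ^ 2 * (1 + Real.logb 2 ((p : ℝ) - 1)) := by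
  obtain ⟨k, rfl⟩ : ∃ k, p = k + 2 := ⟨p - 2, by omega⟩
  have h1 : (2 * (2 * k ^ 2 + 2)) ^ (2 * k ^ 2 + 2) ≤ (2 * (k + 1)) ^ (4 * (k + 1) ^ 2) := by
    have h2 : 2 * k ^ 2 + 2 ≤ 2 * (k + 1) ^ 2 := by nlinarith
    calc (2 * (2 * k ^ 2 + 2)) ^ (2 * k ^ 2 + 2)
        ≤ (2 * (2 * (k + 1) ^ 2)) ^ (2 * k ^ 2 + 2) := Nat.pow_le_pow_left (by omega) _
      _ ≤ (2 * (2 * (k + 1) ^ 2)) ^ (2 * (k + 1) ^ 2) :=
          Nat.pow_le_pow_right (by positivity) h2
      _ = (2 * (k + 1)) ^ (4 * (k + 1) ^ 2) := by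
          rw [show 2 * (2 * (k + 1) ^ 2) = (2 * (k + 1)) ^ 2 by ring, ← pow_mul]
          congr 1
          ring
  have h3 : Forces (k + 2) ((2 * (k + 1)) ^ (4 * (k + 1) ^ 2)) := forces_of_le k _ h1
  have hmem : g (k + 2) ∈ {n | Forces (k + 2) n} := Nat.sInf_mem ⟨_, h3⟩
  have hle : g (k + 2) ≤ (2 * (k + 1)) ^ (4 * (k + 1) ^ 2) := Nat.sInf_le h3
  refine ⟨hmem, ?_⟩
  have hk : (((k + 2 : ℕ) : ℝ) - 1) = (k : ℝ) + 1 := by push_cast; ring
  rw [hk]
  have hk1 : (0 : ℝ) < (k : ℝ) + 1 := by positivity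
  have hlog : (0 : ℝ) ≤ Real.logb 2 ((k : ℝ) + 1) :=
    Real.logb_nonneg (by norm_num) (by linarith [(Nat.cast_nonneg k : (0 : ℝ) ≤ k)])
  rcases Nat.eq_zero_or_pos (g (k + 2)) with h0 | h0
  · rw [h0]
    simp only [Nat.cast_zero, Real.logb_zero]
    positivity
  · have h4 : Real.logb 2 (g (k + 2) : ℝ) ≤
        Real.logb 2 ((2 * ((k : ℝ) + 1)) ^ (4 * (k + 1) ^ 2)) := by
      refine Real.logb_le_logb_of_le (by norm_num) (by exact_mod_cast h0) ?_
      exact_mod_cast hle
    refine h4.trans (le_of_eq ?_)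
    rw [Real.logb_pow, Real.logb_mul (by norm_num) hk1.ne', Real.logb_self_eq_one (by norm_num)]
    push_cast
    ring

end Pool.Agent.Results.MP_6c3374_co.PolynomialExponent
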